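import Pool.Agent.Lib.MP_85fd23_an_W.Main

/-!
# MP_85fd23_an, towers: lattice operations on good functions, translations

A function which is good with the constant `s` on the whole space is `s`-Lipschitz for `N`, so no
Lipschitz bounds have to be carried along.
-/

set_option autoImplicit false
set_option linter.unusedSectionVars false

open Filter Metric Set
open scoped Topology

namespace Pool.Agent.MP_85fd23_an.T

open Pool.Agent.MP_85fd23_an.B Pool.Agent.MP_85fd23_an.W

variable {X : Type*} [NormedAddCommGroup X] [NormedSpace ℝ X]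

/-- Good functions are Lipschitz. -/
theorem good_nlip {N F : X → ℝ} (hN : EquivNorm N) {s : ℝ} (hF : Good N F s univ) :
    NLip N s F := by
  intro x y
  refine le_of_forall_pos_le_add fun δ hδ => ?_
  obtain ⟨η, hη0, hη⟩ : ∃ η : ℝ, 0 < η ∧ η * N (x - y) ≤ δ / 2 := by
    have h1 : 0 ≤ N (x - y) := hN.nonneg _
    refine ⟨δ / 2 / (N (x - y) + 1), by positivity, ?_⟩
    rw [div_mul_eq_mul_div, div_le_iff₀ (by positivity)]
    nlinarith
  obtain ⟨g, h1, h2, h3⟩ := hF.2 (δ / 4) (by positivity) η hη0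
  rw [contDiffOn_univ] at h1
  have h4 := nlip_of_pb hN h1 (fun z => h3 z (mem_univ z)) x y
  have h5 := abs_le.1 (h2 x (mem_univ x))
  have h6 := abs_le.1 (h2 y (mem_univ y))
  have h7 := abs_le.1 h4
  rw [abs_le]
  constructor <;> linarith [h5.1, h5.2, h6.1, h6.2, h7.1, h7.2]

/-- A uniform Lipschitz bound for the norm of the space. -/
theorem exists_bound {N : X → ℝ} (hN : EquivNorm N) (s : ℝ) :
    ∃ B : ℝ, 0 ≤ B ∧ ∀ F : X → ℝ, NLip N s F → ∀ x y, |F x - F y| ≤ B * ‖x - y‖ := by
  obtain ⟨a, b, ha, hab⟩ := hN.equiv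
  refine ⟨|s| * |b|, by positivity, fun F hF x y => ?_⟩
  have h1 := hF x y
  have h2 : s * N (x - y) ≤ |s| * N (x - y) :=
    mul_le_mul_of_nonneg_right (le_abs_self s) (hN.nonneg _)
  have h3 : N (x - y) ≤ |b| * ‖x - y‖ :=
    (hab _).2.trans (mul_le_mul_of_nonneg_right (le_abs_self b) (norm_nonneg _))
  have h4 := mul_le_mul_of_nonneg_left h3 (abs_nonneg s)
  rw [← mul_assoc] at h4
  linarith

/-- Selections of good functions. -/
theorem good_sel [CompleteSpace X] {C : ℝ} (hS : StarOne (fun x : X => ‖x‖) C) {N F : X → ℝ}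
    (hN : EquivNorm N) {s : ℝ} (hF : NLip N s F) (f : ℕ → X → ℝ)
    (hf : ∀ n, Good N (f n) s univ) (hsel : ∀ x, ∃ n, F x = f n x) : Good N F s univ := by
  obtain ⟨B, hB, hb⟩ := exists_bound hN s
  exact good_select hS hN hB (hb F hF) f (fun n => ⟨B, hB, hb _ (good_nlip hN (hf n))⟩) hf hsel

/-- Finite minima. -/
theorem good_inf' [CompleteSpace X] {C : ℝ} (hS : StarOne (fun x : X => ‖x‖) C) {N : X → ℝ}
    (hN : EquivNorm N) {s : ℝ} {ι : Type*} (T : Finset ι) (hT : T.Nonempty) (f : ι → X → ℝ)
    (hf : ∀ i ∈ T, Good N (f i) s univ) : Good N (fun x => T.inf' hT fun i => f i x) s univ := by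
  classical
  have hlip : NLip N s (fun x => T.inf' hT fun i => f i x) := by
    have h1 : ∀ x y, (T.inf' hT fun i => f i x) - (T.inf' hT fun i => f i y) ≤ s * N (x - y) := by
      intro x y
      obtain ⟨i, hi, h2⟩ := T.exists_mem_eq_inf' hT fun i => f i y
      have h3 : (T.inf' hT fun i => f i x) ≤ f i x := Finset.inf'_le (f := fun i => f i x) hi
      have h4 := (abs_le.1 (good_nlip hN (hf i hi) x y)).2
      rw [h2]
      linarith
    intro x y
    have h2 := h1 x y
    have h3 := h1 y x
    rw [hN.symm_sub y x] at h3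
    rw [abs_le]
    constructor <;> linarith
  obtain ⟨g, hg⟩ := (T.countable_toSet).exists_eq_range (by simpa using hT)
  refine good_sel hS hN hlip (fun n => f (g n)) (fun n => hf _ ?_) fun x => ?_
  · have h1 : g n ∈ (T : Set ι) := by
      rw [hg]
      exact mem_range_self n
    simpa using h1
  · obtain ⟨i, hi, h2⟩ := T.exists_mem_eq_inf' hT fun i => f i x
    have h3 : i ∈ (T : Set ι) := by simpa using hi
    rw [hg] at h3
    obtain ⟨n, rfl⟩ := h3
    exact ⟨n, h2⟩

/-- Finite maxima. -/
theorem good_sup' [CompleteSpace X] {C : ℝ} (hS : StarOne (fun x : X => ‖x‖) C) {N : X → ℝ}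
    (hN : EquivNorm N) {s : ℝ} {ι : Type*} (T : Finset ι) (hT : T.Nonempty) (f : ι → X → ℝ)
    (hf : ∀ i ∈ T, Good N (f i) s univ) : Good N (fun x => T.sup' hT fun i => f i x) s univ := by
  classical
  have hlip : NLip N s (fun x => T.sup' hT fun i => f i x) := by
    have h1 : ∀ x y, (T.sup' hT fun i => f i x) - (T.sup' hT fun i => f i y) ≤ s * N (x - y) := by
      intro x y
      obtain ⟨i, hi, h2⟩ := T.exists_mem_eq_sup' hT fun i => f i x
      have h3 : f i y ≤ (T.sup' hT fun i => f i y) := Finset.le_sup' (f := fun i => f i y) hi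
      have h4 := (abs_le.1 (good_nlip hN (hf i hi) x y)).2
      rw [h2]
      linarith
    intro x y
    have h2 := h1 x y
    have h3 := h1 y x
    rw [hN.symm_sub y x] at h3
    rw [abs_le]
    constructor <;> linarith
  obtain ⟨g, hg⟩ := (T.countable_toSet).exists_eq_range (by simpa using hT)
  refine good_sel hS hN hlip (fun n => f (g n)) (fun n => hf _ ?_) fun x => ?_
  · have h1 : g n ∈ (T : Set ι) := by
      rw [hg]
      exact mem_range_self n
    simpa using h1
  · obtain ⟨i, hi, h2⟩ := T.exists_mem_eq_sup' hT fun i => f i x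
    have h3 : i ∈ (T : Set ι) := by simpa using hi
    rw [hg] at h3
    obtain ⟨n, rfl⟩ := h3
    exact ⟨n, h2⟩

/-- Minima of two functions. -/
theorem good_inf [CompleteSpace X] {C : ℝ} (hS : StarOne (fun x : X => ‖x‖) C) {N F G : X → ℝ}
    (hN : EquivNorm N) {s : ℝ} (hF : Good N F s univ) (hG : Good N G s univ) :
    Good N (fun x => min (F x) (G x)) s univ := by
  obtain ⟨B, hB, hb⟩ := exists_bound hN s
  exact (good_min hS hN hB (hb F (good_nlip hN hF)) (hb G (good_nlip hN hG)) hF hG).2

/-- Translations. -/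
theorem good_trans {N F : X → ℝ} {s : ℝ} (hF : Good N F s univ) (τ : X) :
    Good N (fun x => F (x - τ)) s univ := by
  refine ⟨isOpen_univ, fun ε hε η hη => ?_⟩
  obtain ⟨g, h1, h2, h3⟩ := hF.2 ε hε η hη
  rw [contDiffOn_univ] at h1
  refine ⟨fun x => g (x - τ), ?_, fun x _ => h2 (x - τ) (mem_univ _), fun x _ => ?_⟩
  · rw [contDiffOn_univ]
    exact h1.comp (contDiff_id.sub contDiff_const)
  · have h4 := h3 (x - τ) (mem_univ _)
    have h5 : fderiv ℝ (fun x => g (x - τ)) x = fderiv ℝ g (x - τ) := fderiv_comp_sub τ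
    rw [h5]
    exact h4

/-- Insertion: between the limit of a decreasing sequence of good functions and the limit of an
increasing sequence of good functions there is a good function. -/
theorem good_between [CompleteSpace X] {C : ℝ} (hS : StarOne (fun x : X => ‖x‖) C) {N : X → ℝ}
    (hN : EquivNorm N) {s : ℝ} {V W : ℕ → X → ℝ}
    (hVg : ∀ k, Good N (V k) s univ) (hWg : ∀ k, Good N (W k) s univ)
    (hVm : ∀ k x, V (k + 1) x ≤ V k x) (hWm : ∀ k x, W k x ≤ W (k + 1) x)
    (hVW : ∀ x, ∀ δ > 0, ∃ k, V k x ≤ W k x + δ) :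
    ∃ G : X → ℝ, Good N G s univ ∧ (∀ x a, (∀ k, a ≤ V k x) → a ≤ G x) ∧
      ∀ x a, (∀ k, W k x ≤ a) → G x ≤ a := by
  have hVa : ∀ x, Antitone fun k => V k x := fun x => antitone_nat_of_succ_le fun k => hVm k x
  have hWa : ∀ x, Monotone fun k => W k x := fun x => monotone_nat_of_le_succ fun k => hWm k x
  have hbd : ∀ x, BddAbove (range fun k => min (V k x) (W k x)) := fun x => by
    refine ⟨V 0 x, ?_⟩
    rintro _ ⟨k, rfl⟩
    exact (min_le_left _ _).trans (hVa x (Nat.zero_le k))
  obtain ⟨G, hG⟩ : ∃ G : X → ℝ, G = fun x => ⨆ k, min (V k x) (W k x) := ⟨_, rfl⟩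
  have hG1 : ∀ x k, min (V k x) (W k x) ≤ G x := fun x k => by
    rw [hG]
    exact le_ciSup (hbd x) k
  have hG2 : ∀ x a, (∀ k, min (V k x) (W k x) ≤ a) → G x ≤ a := fun x a h => by
    rw [hG]
    exact ciSup_le h
  refine ⟨G, good_of_close isOpen_univ fun δ hδ => ?_, fun x a ha => ?_, fun x a ha =>
    hG2 x a fun k => (min_le_right _ _).trans (ha k)⟩
  · have hW'g : ∀ k, Good N (fun x => δ + W k x) s univ := fun k => by
      have h1 := good_add (good_const hN δ isOpen_univ) (hWg k)
      rwa [zero_add] at h1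
    obtain ⟨f, hf⟩ : ∃ f : ℕ → X → ℝ, f = fun k x => min (V k x) (δ + W k x) := ⟨_, rfl⟩
    have hfx : ∀ k x, f k x = min (V k x) (δ + W k x) := fun k x => by rw [hf]
    have hfg : ∀ k, Good N (f k) s univ := fun k => by
      rw [hf]
      exact good_inf hS hN (hVg k) (hW'g k)
    obtain ⟨κ, hκ⟩ := exists_kappa f fun x => by
      obtain ⟨K, hK⟩ := hVW x δ hδ
      have h1 : ∀ k, K ≤ k → f k x = V k x := fun k hk => by
        have h2 := hVa x hk
        have h3 := hWa x hk
        rw [hfx]
        refine min_eq_left ?_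
        simp only at h2 h3
        linarith
      refine ⟨K, fun k hk => ?_⟩
      rw [h1 k hk, h1 K le_rfl]
      exact hVa x hk
    have hlip : NLip N s (fun x => f (κ x) x) := by
      intro x z
      have h1 := hκ z (κ x)
      have h2 := hκ x (κ z)
      have h3 := abs_le.1 (good_nlip hN (hfg (κ x)) x z)
      have h4 := abs_le.1 (good_nlip hN (hfg (κ z)) x z)
      rw [abs_le]
      constructor <;> linarith [h3.1, h3.2, h4.1, h4.2]
    refine ⟨fun x => f (κ x) x, good_sel hS hN hlip f hfg (fun x => ⟨κ x, rfl⟩), fun x _ => ?_⟩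
    have h1 : f (κ x) x ≤ G x + δ := by
      have h2 := hG1 x (κ x)
      rw [hfx]
      rcases le_total (V (κ x) x) (W (κ x) x) with h3 | h3
      · rw [min_eq_left h3] at h2
        exact (min_le_left _ _).trans (by linarith)
      · rw [min_eq_right h3] at h2
        exact (min_le_right _ _).trans (by linarith)
    have h2 : G x ≤ f (κ x) x := by
      refine hG2 x _ fun k => le_trans ?_ (hκ x k)
      rw [hfx]
      exact min_le_min le_rfl (by linarith)
    rw [abs_le]
    constructor <;> linarith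
  · refine le_of_forall_pos_le_add fun δ hδ => ?_
    obtain ⟨k, hk⟩ := hVW x δ hδ
    have h1 := hG1 x k
    have h2 := ha k
    rcases le_total (V k x) (W k x) with h3 | h3
    · rw [min_eq_left h3] at h1
      linarith
    · rw [min_eq_right h3] at h1
      linarith

end Pool.Agent.MP_85fd23_an.T
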