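import Pool.Agent.Lib.MP_85fd23_an_T.Quot

/-!
# MP_85fd23_an, towers: minima over the label sets

`minf n h x` is the minimum over `m ≤ n` of the infimum over the sets `A` with at most `n` elements
of `h m A x`.
-/

set_option autoImplicit false
set_option linter.unusedSectionVars false

open Filter Metric Set
open scoped Topology

namespace Pool.Agent.MP_85fd23_an.T

open Pool.Agent.MP_85fd23_an.B Pool.Agent.MP_85fd23_an.W

variable {X : Type*} [NormedAddCommGroup X] [NormedSpace ℝ X] {Γ : Type*}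

/-- The infimum over the sets with at most `n` elements. -/
noncomputable def vinf (n : ℕ) (h : Finset Γ → X → ℝ) (x : X) : ℝ :=
  ⨅ A : {A : Finset Γ // A.card ≤ n}, h A.1 x

/-- The minimum of the infima. -/
noncomputable def minf (n : ℕ) (h : ℕ → Finset Γ → X → ℝ) (x : X) : ℝ :=
  (Finset.range (n + 1)).inf' Finset.nonempty_range_add_one fun m => vinf n (h m) x

section
variable {n : ℕ} {g : Finset Γ → X → ℝ}

theorem vinf_le {x : X} {b : ℝ} (hb : ∀ A, b ≤ g A x) {A : Finset Γ} (hA : A.card ≤ n) :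
    vinf n g x ≤ g A x :=
  ciInf_le (f := fun A : {A : Finset Γ // A.card ≤ n} => g A.1 x) ⟨b, by
    rintro _ ⟨A, rfl⟩
    exact hb A.1⟩ ⟨A, hA⟩

theorem exists_vinf (n : ℕ) (g : Finset Γ → X → ℝ) (x : X) {δ : ℝ} (hδ : 0 < δ) :
    ∃ A : Finset Γ, A.card ≤ n ∧ g A x ≤ vinf n g x + δ := by
  have : Nonempty {A : Finset Γ // A.card ≤ n} := ⟨⟨∅, by simp⟩⟩
  obtain ⟨A, hA⟩ := exists_lt_of_ciInf_lt (f := fun A : {A : Finset Γ // A.card ≤ n} => g A.1 x)
    (a := vinf n g x + δ) (by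
      rw [vinf] at *
      linarith)
  exact ⟨A.1, A.2, hA.le⟩

theorem good_vinf [CompleteSpace X] {C : ℝ} (hS : StarOne (fun x : X => ‖x‖) C) {N : X → ℝ}
    (hN : EquivNorm N) {s : ℝ} (hg : ∀ A, Good N (g A) s univ) (hl : Lsc n g)
    (hb : ∀ x, ∃ b, ∀ A, b ≤ g A x) : Good N (vinf n g) s univ := by
  obtain ⟨B, hB, hBB⟩ := exists_bound hN s
  have h1 : ∀ x y, vinf n g x - vinf n g y ≤ B * ‖x - y‖ := fun x y => by
    refine le_of_forall_pos_le_add fun δ hδ => ?_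
    obtain ⟨A, hA, h2⟩ := exists_vinf n g y hδ
    obtain ⟨b, hb'⟩ := hb x
    have h3 := vinf_le hb' hA
    have h4 := (abs_le.1 (hBB _ (good_nlip hN (hg A)) x y)).2
    linarith
  refine good_scat hS hN hB (fun A => hBB _ (good_nlip hN (hg A))) (fun A _ => hg A) hl
    (fun x y => ?_) (fun A hA x => ?_) (fun x δ hδ => exists_vinf n g x hδ)
  · have h2 := h1 x y
    have h3 := h1 y x
    rw [norm_sub_rev] at h3
    rw [abs_le]
    constructor <;> linarith
  · obtain ⟨b, hb'⟩ := hb x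
    exact vinf_le hb' hA

end

variable {n : ℕ} {h : ℕ → Finset Γ → X → ℝ}

theorem minf_le {x : X} {b : ℝ} {m : ℕ} (hm : m ≤ n) (hb : ∀ A, b ≤ h m A x) {A : Finset Γ}
    (hA : A.card ≤ n) : minf n h x ≤ h m A x :=
  (Finset.inf'_le (f := fun m => vinf n (h m) x) (Finset.mem_range.2 (by omega))).trans
    (vinf_le hb hA)

theorem exists_minf' (n : ℕ) (h : ℕ → Finset Γ → X → ℝ) (x : X) :
    ∃ m ≤ n, minf n h x = vinf n (h m) x := by
  obtain ⟨m, hm, h1⟩ := (Finset.range (n + 1)).exists_mem_eq_inf' Finset.nonempty_range_add_one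
    fun m => vinf n (h m) x
  exact ⟨m, by have := Finset.mem_range.1 hm; omega, h1⟩

theorem exists_minf (n : ℕ) (h : ℕ → Finset Γ → X → ℝ) (x : X) {δ : ℝ} (hδ : 0 < δ) :
    ∃ m ≤ n, ∃ A : Finset Γ, A.card ≤ n ∧ h m A x ≤ minf n h x + δ := by
  obtain ⟨m, hm, h1⟩ := exists_minf' n h x
  obtain ⟨A, hA, h2⟩ := exists_vinf n (h m) x hδ
  exact ⟨m, hm, A, hA, by rw [h1]; exact h2⟩

theorem le_minf {x : X} {b : ℝ} (hb : ∀ m ≤ n, b ≤ vinf n (h m) x) : b ≤ minf n h x := by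
  obtain ⟨m, hm, h1⟩ := exists_minf' n h x
  rw [h1]
  exact hb m hm

theorem good_minf [CompleteSpace X] {C : ℝ} (hS : StarOne (fun x : X => ‖x‖) C) {N : X → ℝ}
    (hN : EquivNorm N) {s : ℝ} (hg : ∀ m A, Good N (h m A) s univ) (hl : ∀ m, Lsc n (h m))
    (hb : ∀ m x, ∃ b, ∀ A, b ≤ h m A x) : Good N (minf n h) s univ :=
  good_inf' hS hN _ _ _ fun m _ => good_vinf hS hN (hg m) (hl m) (hb m)

/-- `minf` is antitone in `n`. -/
theorem minf_anti {x : X} (hb : ∀ m, ∃ b, ∀ A, b ≤ h m A x) :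
    minf (n + 1) h x ≤ minf n h x := by
  refine le_of_forall_pos_le_add fun δ hδ => ?_
  obtain ⟨m, hm, A, hA, h1⟩ := exists_minf n h x hδ
  obtain ⟨b, hb'⟩ := hb m
  exact (minf_le (by omega) hb' (by omega)).trans h1

/-- `minf` is monotone in the family. -/
theorem minf_mono {h' : ℕ → Finset Γ → X → ℝ} {x : X} (hb : ∀ m, ∃ b, ∀ A, b ≤ h m A x)
    (hh : ∀ m A, h m A x ≤ h' m A x) : minf n h x ≤ minf n h' x := by
  refine le_of_forall_pos_le_add fun δ hδ => ?_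
  obtain ⟨m, hm, A, hA, h1⟩ := exists_minf n h' x hδ
  obtain ⟨b, hb'⟩ := hb m
  exact ((minf_le hm hb' hA).trans (hh m A)).trans h1

end Pool.Agent.MP_85fd23_an.T
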