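import Pool.Agent.Lib.MP_85fd23_an_T.Minf

/-!
# MP_85fd23_an, towers: one step, upper functions

`W τ k` are minorants of `F (· + τ)` which increase with `k` and reach `F (· + τ)` up to `c L`
times the distance to `Z`.  `om n k` is the minimum over the label sets `A` with at most `n`
elements of `max_τ W τ k (· - τ) + c L min_τ dist (· - τ, Z)`.  It is good, it increases with `k`
beyond `F`, and it stays below `F + c L sg n`, where `sg n` is the distance to the labels of the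
sets with at most `n` elements modulo `Z`.
-/

set_option autoImplicit false
set_option linter.unusedSectionVars false

open Filter Metric Set
open scoped Topology

namespace Pool.Agent.MP_85fd23_an.T

open Pool.Agent.MP_85fd23_an.B Pool.Agent.MP_85fd23_an.W

variable {X : Type*} [NormedAddCommGroup X] [NormedSpace ℝ X] {Γ : Type*}

/-- The distance to the labels modulo `Z`. -/
noncomputable def dq (e : Γ → X) (N : X → ℝ) (Z : Submodule ℝ X) (m : ℕ) (A : Finset Γ) (x : X) :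
    ℝ :=
  (Y_finite e A m).toFinset.inf' (Yf_nonempty e A m) fun τ => qn N Z (x - τ)

/-- The maximum of the translated functions. -/
noncomputable def wl (e : Γ → X) (W : X → X → ℝ) (m : ℕ) (A : Finset Γ) (x : X) : ℝ :=
  (Y_finite e A m).toFinset.sup' (Yf_nonempty e A m) fun τ => W τ (x - τ)

/-- A sequence of good minorants of `F` which reaches `F` up to `c L` times the distance to `Z`. -/
structure Wit (N : X → ℝ) (Z : Submodule ℝ X) (s c L : ℝ) (F : X → ℝ) (w : ℕ → X → ℝ) :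
    Prop where
  good : ∀ k, Good N (w k) (s * L) univ
  mono : ∀ k x, w k x ≤ w (k + 1) x
  le : ∀ k x, w k x ≤ F x
  conv : ∀ x, ∀ y ∈ Z, ∀ δ > 0, ∃ k, F x - c * L * N (x - y) - δ ≤ w k x

variable {e : Γ → X} {N : X → ℝ} {Z : Submodule ℝ X} {W W' : X → X → ℝ} {m : ℕ} {A : Finset Γ}

theorem dq_le {τ : X} (hτ : τ ∈ Y e A m) (x : X) : dq e N Z m A x ≤ qn N Z (x - τ) :=
  Finset.inf'_le (f := fun τ => qn N Z (x - τ)) ((Y_finite e A m).mem_toFinset.2 hτ)

theorem exists_dq (e : Γ → X) (N : X → ℝ) (Z : Submodule ℝ X) (m : ℕ) (A : Finset Γ) (x : X) :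
    ∃ τ ∈ Y e A m, dq e N Z m A x = qn N Z (x - τ) := by
  obtain ⟨τ, hτ, h⟩ := (Y_finite e A m).toFinset.exists_mem_eq_inf' (Yf_nonempty e A m)
    fun τ => qn N Z (x - τ)
  exact ⟨τ, (Y_finite e A m).mem_toFinset.1 hτ, h⟩

theorem le_wl {τ : X} (hτ : τ ∈ Y e A m) (x : X) : W τ (x - τ) ≤ wl e W m A x :=
  Finset.le_sup' (f := fun τ => W τ (x - τ)) ((Y_finite e A m).mem_toFinset.2 hτ)

theorem exists_wl (e : Γ → X) (W : X → X → ℝ) (m : ℕ) (A : Finset Γ) (x : X) :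
    ∃ τ ∈ Y e A m, wl e W m A x = W τ (x - τ) := by
  obtain ⟨τ, hτ, h⟩ := (Y_finite e A m).toFinset.exists_mem_eq_sup' (Yf_nonempty e A m)
    fun τ => W τ (x - τ)
  exact ⟨τ, (Y_finite e A m).mem_toFinset.1 hτ, h⟩

theorem dq_nonneg (hN : EquivNorm N) (m : ℕ) (A : Finset Γ) (x : X) : 0 ≤ dq e N Z m A x := by
  obtain ⟨τ, -, h⟩ := exists_dq e N Z m A x
  rw [h]
  exact qn_nonneg hN _

theorem good_dq [CompleteSpace X] {C : ℝ} (hS : StarOne (fun x : X => ‖x‖) C)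
    (hN : EquivNorm N) (m : ℕ) (A : Finset Γ) : Good N (dq e N Z m A) 1 univ :=
  good_inf' hS hN _ _ _ fun τ _ => good_trans (good_qn hS hN) τ

theorem good_wl [CompleteSpace X] {C : ℝ} (hS : StarOne (fun x : X => ‖x‖) C)
    (hN : EquivNorm N) {s : ℝ} (hW : ∀ τ, Good N (W τ) s univ) (m : ℕ) (A : Finset Γ) :
    Good N (wl e W m A) s univ :=
  good_sup' hS hN _ _ _ fun τ _ => good_trans (hW τ) τ

theorem wl_mono (e : Γ → X) (W : X → X → ℝ) {A A' : Finset Γ} (hA : A ⊆ A') (m : ℕ) (x : X) :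
    wl e W m A x ≤ wl e W m A' x := by
  obtain ⟨τ, hτ, h⟩ := exists_wl e W m A x
  rw [h]
  exact le_wl (Y_mono e hA le_rfl hτ) x

theorem wl_mono' (e : Γ → X) (hW : ∀ τ x, W τ x ≤ W' τ x) (m : ℕ) (A : Finset Γ) (x : X) :
    wl e W m A x ≤ wl e W' m A x := by
  obtain ⟨τ, hτ, h⟩ := exists_wl e W m A x
  rw [h]
  exact (hW _ _).trans (le_wl hτ x)

theorem wl_le (e : Γ → X) {F : X → ℝ} (hW : ∀ τ x, W τ x ≤ F (x + τ)) (m : ℕ) (A : Finset Γ)
    (x : X) : wl e W m A x ≤ F x := by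
  obtain ⟨τ, hτ, h⟩ := exists_wl e W m A x
  rw [h]
  have h1 := hW τ (x - τ)
  rwa [sub_add_cancel] at h1

theorem lsc_dq (hN : EquivNorm N)
    (hc0 : ∀ φ : X →L[ℝ] ℝ, (∀ y ∈ Z, φ y = 0) → ∀ ε > 0, {γ | ε ≤ |φ (e γ)|}.Finite)
    (n m : ℕ) : Lsc n (dq e N Z m) := by
  intro A R hA hR hfin x δ hδ
  filter_upwards [lab_lsc (m := m) hN hc0 A R hA hR hfin x hδ] with k hk
  obtain ⟨τ, hτ, h⟩ := exists_dq e N Z m (A k) x
  obtain ⟨τ', hτ', h1⟩ := hk τ hτ
  rw [h]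
  exact (dq_le hτ' x).trans h1

theorem lsc_h (hN : EquivNorm N)
    (hc0 : ∀ φ : X →L[ℝ] ℝ, (∀ y ∈ Z, φ y = 0) → ∀ ε > 0, {γ | ε ≤ |φ (e γ)|}.Finite)
    (n m : ℕ) {r : ℝ} (hr : 0 ≤ r) (W : X → X → ℝ) :
    Lsc n (fun A x => wl e W m A x + r * dq e N Z m A x) := by
  intro A R hA hR hfin x δ hδ
  have hτ : 0 < δ / (r + 1) := by positivity
  filter_upwards [lsc_dq hN hc0 n m A R hA hR hfin x _ hτ] with k hk
  have h1 := wl_mono e W (hR k) m x
  have h2 := mul_le_mul_of_nonneg_left hk hr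
  have h3 : r * (δ / (r + 1)) ≤ δ := by
    rw [← mul_div_assoc, div_le_iff₀ (by positivity)]
    nlinarith
  rw [mul_add] at h2
  linarith

/-- The distance to the labels of the sets with at most `n` elements. -/
noncomputable def sg (e : Γ → X) (N : X → ℝ) (Z : Submodule ℝ X) (n : ℕ) (x : X) : ℝ :=
  minf n (dq e N Z) x

theorem good_sg [CompleteSpace X] {C : ℝ} (hS : StarOne (fun x : X => ‖x‖) C)
    (hN : EquivNorm N)
    (hc0 : ∀ φ : X →L[ℝ] ℝ, (∀ y ∈ Z, φ y = 0) → ∀ ε > 0, {γ | ε ≤ |φ (e γ)|}.Finite)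
    (n : ℕ) : Good N (sg e N Z n) 1 univ :=
  good_minf hS hN (good_dq hS hN) (lsc_dq hN hc0 n) fun m x => ⟨0, fun A => dq_nonneg hN m A x⟩

theorem sg_anti (e : Γ → X) (Z : Submodule ℝ X) (hN : EquivNorm N) (n : ℕ) (x : X) :
    sg e N Z (n + 1) x ≤ sg e N Z n x :=
  minf_anti fun m => ⟨0, fun A => dq_nonneg hN m A x⟩

theorem sg_nonneg (e : Γ → X) (Z : Submodule ℝ X) (hN : EquivNorm N) (n : ℕ) (x : X) :
    0 ≤ sg e N Z n x := by
  refine le_of_forall_pos_le_add fun δ hδ => ?_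
  obtain ⟨m, -, A, -, h⟩ := exists_minf n (dq e N Z) x hδ
  exact (dq_nonneg hN m A x).trans h

/-- The distances to the labels tend to the distance to the next space. -/
theorem exists_sg (hN : EquivNorm N) {x y' : X}
    (hy' : y' ∈ (Z ⊔ Submodule.span ℝ (range e)).topologicalClosure) {δ : ℝ} (hδ : 0 < δ) :
    ∃ n, sg e N Z n x ≤ N (x - y') + δ := by
  obtain ⟨A, m, τ, hτ, h⟩ := lab_dense (x := x) hN hy' hδ
  refine ⟨max m A.card, ?_⟩
  have h1 : sg e N Z (max m A.card) x ≤ dq e N Z m A x :=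
    minf_le (le_max_left _ _) (fun A => dq_nonneg hN m A x) (le_max_right _ _)
  exact (h1.trans (dq_le hτ x)).trans h

/-- The upper functions. -/
noncomputable def om (e : Γ → X) (N : X → ℝ) (Z : Submodule ℝ X) (r : ℝ) (W : X → ℕ → X → ℝ)
    (n k : ℕ) (x : X) : ℝ :=
  minf n (fun m A x => wl e (fun τ => W τ k) m A x + r * dq e N Z m A x) x

section
variable {r : ℝ} {V : X → ℕ → X → ℝ}

theorem om_bdd (hN : EquivNorm N) (hr : 0 ≤ r) (k m : ℕ) (x : X) :
    ∃ b, ∀ A, b ≤ wl e (fun τ => V τ k) m A x + r * dq e N Z m A x := by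
  refine ⟨wl e (fun τ => V τ k) m ∅ x, fun A => ?_⟩
  have h1 := wl_mono e (fun τ => V τ k) (Finset.empty_subset A) m x
  have h2 := mul_nonneg hr (dq_nonneg (e := e) (Z := Z) hN m A x)
  linarith

theorem good_om [CompleteSpace X] {C : ℝ} (hS : StarOne (fun x : X => ‖x‖) C)
    (hN : EquivNorm N)
    (hc0 : ∀ φ : X →L[ℝ] ℝ, (∀ y ∈ Z, φ y = 0) → ∀ ε > 0, {γ | ε ≤ |φ (e γ)|}.Finite)
    (hr : 0 ≤ r) {s : ℝ} (hV : ∀ τ k, Good N (V τ k) s univ) (n k : ℕ) :
    Good N (om e N Z r V n k) (s + r) univ := by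
  refine good_minf hS hN (fun m A => ?_) (fun m => lsc_h hN hc0 n m hr _)
    (fun m x => om_bdd hN hr k m x)
  have h1 := good_add (good_wl (e := e) hS hN (fun τ => hV τ k) m A)
    (good_smul hN hr (good_dq (e := e) (Z := Z) hS hN m A))
  rwa [mul_one] at h1

theorem om_anti (hN : EquivNorm N) (hr : 0 ≤ r) (n k : ℕ) (x : X) :
    om e N Z r V (n + 1) k x ≤ om e N Z r V n k x :=
  minf_anti fun m => om_bdd hN hr k m x

theorem om_mono (hN : EquivNorm N) (hr : 0 ≤ r) (hV : ∀ τ k x, V τ k x ≤ V τ (k + 1) x)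
    (n k : ℕ) (x : X) : om e N Z r V n k x ≤ om e N Z r V n (k + 1) x :=
  minf_mono (fun m => om_bdd hN hr k m x) fun m A =>
    add_le_add_left (wl_mono' e (fun τ x => hV τ k x) m A x) _

theorem om_le (hN : EquivNorm N) (hr : 0 ≤ r) {F : X → ℝ}
    (hV : ∀ τ k x, V τ k x ≤ F (x + τ)) (n k : ℕ) (x : X) :
    om e N Z r V n k x ≤ F x + r * sg e N Z n x := by
  refine le_of_forall_pos_le_add fun δ hδ => ?_
  obtain ⟨m, hm, A, hA, h1⟩ := exists_minf n (dq e N Z) x (show 0 < δ / (r + 1) by positivity)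
  obtain ⟨b, hb⟩ := om_bdd (e := e) (Z := Z) (V := V) hN hr k m x
  have h2 : om e N Z r V n k x ≤ wl e (fun τ => V τ k) m A x + r * dq e N Z m A x :=
    minf_le (h := fun m A x => wl e (fun τ => V τ k) m A x + r * dq e N Z m A x) hm hb hA
  have h3 := wl_le e (W := fun τ => V τ k) (fun τ x => hV τ k x) m A x
  have h4 := mul_le_mul_of_nonneg_left h1 hr
  have h5 : r * (δ / (r + 1)) ≤ δ := by
    rw [← mul_div_assoc, div_le_iff₀ (by positivity)]
    nlinarith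
  rw [mul_add] at h4
  have h6 : r * minf n (dq e N Z) x = r * sg e N Z n x := rfl
  linarith

end

/-- The upper functions increase beyond `F`. -/
theorem exists_om (hN : EquivNorm N)
    (hc0 : ∀ φ : X →L[ℝ] ℝ, (∀ y ∈ Z, φ y = 0) → ∀ ε > 0, {γ | ε ≤ |φ (e γ)|}.Finite)
    {s c L : ℝ} (hc : 0 ≤ c) (hL : 0 ≤ L) {F : X → ℝ} {V : X → ℕ → X → ℝ}
    (hV : ∀ τ, Wit N Z s c L (fun x => F (x + τ)) (V τ)) (n : ℕ) (x : X) {δ : ℝ} (hδ : 0 < δ) :
    ∃ k, F x - δ ≤ om e N Z (c * L) V n k x := by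
  have hr : 0 ≤ c * L := mul_nonneg hc hL
  have hmon : ∀ m A, Monotone fun k =>
      wl e (fun τ => V τ k) m A x + c * L * dq e N Z m A x := fun m A =>
    monotone_nat_of_le_succ fun k =>
      add_le_add_left (wl_mono' e (fun τ x => (hV τ).mono k x) m A x) _
  have key : ∀ m, ∃ k₀, ∀ k, k₀ ≤ k → ∀ A : Finset Γ, A.card ≤ n →
      F x - δ ≤ wl e (fun τ => V τ k) m A x + c * L * dq e N Z m A x := by
    intro m
    by_contra hcon
    push Not at hcon
    choose κ hκ A hA hlt using hcon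
    obtain ⟨σ, R, hσ, hR, hfin⟩ := exists_root n A hA
    obtain ⟨τ, hτ, hd⟩ := exists_dq e N Z m R x
    obtain ⟨y, hy, hyd⟩ := exists_qn (N := N) (Z := Z) (x - τ)
      (show 0 < δ / 4 / (c * L + 1) by positivity)
    obtain ⟨k₀, hk₀⟩ := (hV τ).conv (x - τ) y hy (δ / 4) (by positivity)
    rw [sub_add_cancel] at hk₀
    have h1 : F x - δ / 2 ≤ wl e (fun τ => V τ k₀) m R x + c * L * dq e N Z m R x := by
      have h2 := le_wl (W := fun τ => V τ k₀) hτ x
      have h3 := mul_le_mul_of_nonneg_left hyd hr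
      have h4 : c * L * (δ / 4 / (c * L + 1)) ≤ δ / 4 := by
        rw [← mul_div_assoc, div_le_iff₀ (by positivity)]
        nlinarith
      rw [mul_add] at h3
      rw [hd]
      linarith
    have h2 := lsc_h hN hc0 n m hr (fun τ => V τ k₀) (fun k => A (σ k)) R (fun k => hA _) hR hfin x
      (δ / 2) (half_pos hδ)
    obtain ⟨k, hk1, hk2⟩ := (h2.and (eventually_ge_atTop k₀)).exists
    have h3 : k₀ ≤ κ (σ k) := hk2.trans ((hσ.le_apply).trans (hκ (σ k)))
    have h4 := hmon m (A (σ k)) h3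
    have h5 := hlt (σ k)
    simp only at hk1 h4
    linarith
  choose k₀ hk₀ using key
  obtain ⟨K, hK⟩ : ∃ K : ℕ, ∀ m ∈ Finset.range (n + 1), k₀ m ≤ K :=
    ⟨(Finset.range (n + 1)).sup k₀, fun m hm => Finset.le_sup hm⟩
  refine ⟨K, le_minf fun m hm => ?_⟩
  refine le_of_forall_pos_le_add fun δ' hδ' => ?_
  obtain ⟨A, hA, h1⟩ := exists_vinf n (fun A x => wl e (fun τ => V τ K) m A x +
    c * L * dq e N Z m A x) x hδ'
  exact (hk₀ m K (hK m (Finset.mem_range.2 (by omega))) A hA).trans h1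

end Pool.Agent.MP_85fd23_an.T
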