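import Pool.Agent.Lib.MP_85fd23_an_T.Lat

/-!
# MP_85fd23_an, towers: distances to a subspace

`qn N Y x` is the distance of `x` to the subspace `Y` for the norm `N`. It is a seminorm, it has
norming functionals which vanish on `Y`, it is good with the constant one, and the distances to the
cosets of the labels are lower semicontinuous in the label set.
-/

set_option autoImplicit false
set_option linter.unusedSectionVars false

open Filter Metric Set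
open scoped Topology

namespace Pool.Agent.MP_85fd23_an.T

open Pool.Agent.MP_85fd23_an.B Pool.Agent.MP_85fd23_an.W

variable {X : Type*} [NormedAddCommGroup X] [NormedSpace ℝ X] {Γ : Type*}

/-- The distance to `Y`. -/
noncomputable def qn (N : X → ℝ) (Z : Submodule ℝ X) (x : X) : ℝ := ⨅ y : Z, N (x - y)

variable {N : X → ℝ} {Z : Submodule ℝ X}

theorem qn_le (hN : EquivNorm N) (x : X) {y : X} (hy : y ∈ Z) : qn N Z x ≤ N (x - y) :=
  ciInf_le (f := fun y : Z => N (x - y)) ⟨0, by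
    rintro _ ⟨z, rfl⟩
    exact hN.nonneg _⟩ ⟨y, hy⟩

theorem exists_qn (x : X) {δ : ℝ} (hδ : 0 < δ) : ∃ y ∈ Z, N (x - y) ≤ qn N Z x + δ := by
  obtain ⟨y, hy⟩ := exists_lt_of_ciInf_lt (f := fun y : Z => N (x - y)) (a := qn N Z x + δ) (by
    rw [qn] at *
    linarith)
  exact ⟨y, y.2, hy.le⟩

theorem qn_nonneg (hN : EquivNorm N) (x : X) : 0 ≤ qn N Z x :=
  le_ciInf fun _ => hN.nonneg _

theorem qn_add (hN : EquivNorm N) (x x' : X) : qn N Z (x + x') ≤ qn N Z x + qn N Z x' := by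
  refine le_of_forall_pos_le_add fun δ hδ => ?_
  obtain ⟨y, hy, h1⟩ := exists_qn (N := N) (Z := Z) x (half_pos hδ)
  obtain ⟨y', hy', h2⟩ := exists_qn (N := N) (Z := Z) x' (half_pos hδ)
  have h3 := qn_le hN (x + x') (Z.add_mem hy hy')
  have h4 := hN.add_le (x - y) (x' - y')
  rw [sub_add_sub_comm] at h4
  linarith

theorem qn_zero (hN : EquivNorm N) : qn N Z 0 = 0 := by
  refine le_antisymm ?_ (qn_nonneg hN 0)
  have h1 := qn_le hN (0 : X) Z.zero_mem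
  rwa [sub_zero, N_zero hN] at h1

theorem qn_smul_le (hN : EquivNorm N) (r : ℝ) (x : X) : qn N Z (r • x) ≤ |r| * qn N Z x := by
  refine le_of_forall_pos_le_add fun δ hδ => ?_
  obtain ⟨y, hy, h1⟩ := exists_qn (N := N) (Z := Z) x (show 0 < δ / (|r| + 1) by positivity)
  have h2 := qn_le hN (r • x) (Z.smul_mem r hy)
  rw [← smul_sub, hN.smul] at h2
  have h3 := mul_le_mul_of_nonneg_left h1 (abs_nonneg r)
  have h4 : |r| * (δ / (|r| + 1)) ≤ δ := by
    rw [← mul_div_assoc, div_le_iff₀ (by positivity)]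
    nlinarith [abs_nonneg r]
  rw [mul_add] at h3
  linarith

theorem qn_smul (hN : EquivNorm N) (r : ℝ) (x : X) : qn N Z (r • x) = |r| * qn N Z x := by
  refine le_antisymm (qn_smul_le hN r x) ?_
  rcases eq_or_ne r 0 with rfl | hr
  · simp [qn_zero hN]
  · have h1 := qn_smul_le (Z := Z) hN r⁻¹ (r • x)
    rw [smul_smul, inv_mul_cancel₀ hr, one_smul, abs_inv] at h1
    have h2 := mul_le_mul_of_nonneg_left h1 (abs_nonneg r)
    rwa [← mul_assoc, mul_inv_cancel₀ (abs_ne_zero.2 hr), one_mul] at h2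

theorem qn_le_N (hN : EquivNorm N) (x : X) : qn N Z x ≤ N x := by
  have h1 := qn_le hN x Z.zero_mem
  rwa [sub_zero] at h1

/-- Hahn-Banach: a norming functional which vanishes on `Z`. -/
theorem exists_norming_sub (hN : EquivNorm N) (x : X) :
    ∃ ξ : X →L[ℝ] ℝ, (∀ v, ξ v ≤ qn N Z v) ∧ PB N 1 ξ ∧ (∀ y ∈ Z, ξ y = 0) ∧ ξ x = qn N Z x := by
  obtain ⟨a, b, ha, hab⟩ := hN.equiv
  suffices h : ∃ ξ : X →L[ℝ] ℝ, (∀ v, ξ v ≤ qn N Z v) ∧ ξ x = qn N Z x by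
    obtain ⟨ξ, h1, h2⟩ := h
    refine ⟨ξ, h1, fun v => ?_, fun y hy => ?_, h2⟩
    · rw [one_mul]
      exact (h1 v).trans (qn_le_N hN v)
    · have h3 : ∀ z ∈ Z, ξ z ≤ 0 := fun z hz => by
        have h4 := qn_le hN z hz
        rw [sub_self, N_zero hN] at h4
        exact (h1 z).trans h4
      have h4 := h3 (-y) (Z.neg_mem hy)
      rw [map_neg] at h4
      exact le_antisymm (h3 y hy) (by linarith)
  rcases eq_or_ne x 0 with rfl | hx
  · refine ⟨0, fun v => ?_, by simp [qn_zero hN]⟩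
    rw [zero_apply]
    exact qn_nonneg hN v
  · obtain ⟨f, hf⟩ : ∃ f : (Submodule.span ℝ {x}) →ₗ[ℝ] ℝ, ∀ t : ℝ,
        ∀ h : t • x ∈ Submodule.span ℝ {x}, f ⟨t • x, h⟩ = t * qn N Z x := by
      refine ⟨(qn N Z x) • (LinearEquiv.toSpanNonzeroSingleton ℝ X x hx).symm.toLinearMap,
        fun t h => ?_⟩
      have h1 : (LinearEquiv.toSpanNonzeroSingleton ℝ X x hx).symm ⟨t • x, h⟩ = t := by
        rw [LinearEquiv.symm_apply_eq]
        rfl
      rw [LinearMap.smul_apply, LinearEquiv.coe_coe, h1, smul_eq_mul, mul_comm]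
    obtain ⟨g, hg1, hg2⟩ := exists_extension_of_le_sublinear ⟨Submodule.span ℝ {x}, f⟩ (qn N Z)
      (fun c hc v => by rw [qn_smul hN, abs_of_pos hc]) (qn_add hN) (by
        rintro ⟨v, hv⟩
        obtain ⟨t, rfl⟩ := Submodule.mem_span_singleton.1 hv
        change f ⟨t • x, hv⟩ ≤ qn N Z (t • x)
        rw [hf, qn_smul hN]
        exact mul_le_mul_of_nonneg_right (le_abs_self t) (qn_nonneg hN x))
    have hb : ∀ v, ‖g v‖ ≤ b * ‖v‖ := fun v => by
      rw [Real.norm_eq_abs, abs_le]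
      have h1 := ((hg2 v).trans (qn_le_N hN v)).trans (hab v).2
      have h2 := ((hg2 (-v)).trans (qn_le_N hN (-v))).trans (hab (-v)).2
      rw [map_neg, norm_neg] at h2
      constructor <;> linarith
    refine ⟨g.mkContinuous b hb, fun v => hg2 v, ?_⟩
    have hm : (1 : ℝ) • x ∈ Submodule.span ℝ {x} :=
      Submodule.smul_mem _ _ (Submodule.mem_span_singleton_self x)
    have h1 := hg1 ⟨(1 : ℝ) • x, hm⟩
    have h2 := hf 1 hm
    change g x = qn N Z x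
    have h3 : g ((1 : ℝ) • x) = f ⟨(1 : ℝ) • x, hm⟩ := h1
    have h4 : g ((1 : ℝ) • x) = g x := by rw [one_smul]
    rw [← h4, h3, h2, one_mul]

theorem qn_lip (hN : EquivNorm N) (x z : X) : qn N Z x ≤ qn N Z z + N (x - z) := by
  have h1 := qn_add (Z := Z) hN z (x - z)
  rw [add_sub_cancel] at h1
  exact h1.trans (by linarith [qn_le_N (Z := Z) hN (x - z)])

/-- The distance to `Z` is good. -/
theorem good_qn [CompleteSpace X] {C : ℝ} (hS : StarOne (fun x : X => ‖x‖) C)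
    (hN : EquivNorm N) : Good N (qn N Z) 1 univ := by
  obtain ⟨B, hB, hb⟩ := exists_bound hN 1
  have hlip : NLip N 1 (qn N Z) := fun x z => by
    rw [one_mul, abs_le]
    have h1 := qn_lip (Z := Z) hN x z
    have h2 := qn_lip (Z := Z) hN z x
    rw [hN.symm_sub z x] at h2
    constructor <;> linarith
  refine good_of_forall isOpen_univ fun η hη => ?_
  refine good_sigma hS hN hB (hb _ hlip) zero_le_one ?_ hη
  refine sigma_of_oneSided hN hlip fun x κ hκ => ?_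
  obtain ⟨ξ, hξ1, -, -, hξ2⟩ := exists_norming_sub (Z := Z) hN x
  refine ⟨ξ, Or.inl (Eventually.of_forall fun z => ?_)⟩
  have h2 := hξ1 z
  have h3 : ξ z = ξ (z - x) + ξ x := by rw [← map_add, sub_add_cancel]
  have h4 : 0 ≤ κ * ‖z - x‖ := by positivity
  linarith

/-- The labels outside the root tend weakly modulo `Z` to labels of the root. -/
theorem lab_lsc (hN : EquivNorm N) {e : Γ → X}
    (hc0 : ∀ φ : X →L[ℝ] ℝ, (∀ y ∈ Z, φ y = 0) → ∀ ε > 0, {γ | ε ≤ |φ (e γ)|}.Finite)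
    {n m : ℕ} (A : ℕ → Finset Γ) (R : Finset Γ) (hA : ∀ k, (A k).card ≤ n) (hR : ∀ k, R ⊆ A k)
    (hfin : ∀ γ ∉ R, {k | γ ∈ A k}.Finite) (x : X) {δ : ℝ} (hδ : 0 < δ) :
    ∀ᶠ k in atTop, ∀ y ∈ Y e (A k) m, ∃ y' ∈ Y e R m, qn N Z (x - y') ≤ qn N Z (x - y) + δ := by
  classical
  choose ξ hξ1 hξ0 hξZ hξ2 using fun y' : X => exists_norming_sub (Z := Z) hN (x - y')
  obtain ⟨τ, hτ⟩ : ∃ τ : ℝ, τ = δ / (n * m + 1) := ⟨_, rfl⟩
  have hden : (0 : ℝ) < n * m + 1 := by positivity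
  have hτ0 : 0 < τ := by rw [hτ]; positivity
  obtain ⟨D, hD⟩ : ∃ D : Set Γ, D = ⋃ y' ∈ Y e R m, {γ | τ ≤ |ξ y' (e γ)|} := ⟨_, rfl⟩
  have hDfin : D.Finite := by
    rw [hD]
    exact (Y_finite e R m).biUnion fun y' _ => hc0 (ξ y') (hξZ y') τ hτ0
  have hbad : {k | ∃ γ ∈ D \ R, γ ∈ A k}.Finite := by
    have h1 : {k | ∃ γ ∈ D \ (R : Set Γ), γ ∈ A k} = ⋃ γ ∈ D \ (R : Set Γ), {k | γ ∈ A k} := by
      ext k
      simp
    have h2 : {k | ∃ γ ∈ D \ R, γ ∈ A k} = {k | ∃ γ ∈ D \ (R : Set Γ), γ ∈ A k} := rfl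
    rw [h2, h1]
    exact (hDfin.subset sdiff_subset).biUnion fun γ hγ => hfin γ (by simpa using hγ.2)
  have hev : ∀ᶠ k in atTop, k ∉ {k | ∃ γ ∈ D \ R, γ ∈ A k} := by
    rw [← Nat.cofinite_eq_atTop]
    exact hbad.eventually_cofinite_notMem
  filter_upwards [hev] with k hk
  rintro y ⟨q, hq, rfl⟩
  have hmem : ∑ γ ∈ R, q γ • e γ ∈ Y e R m := ⟨q, hq, rfl⟩
  refine ⟨_, hmem, ?_⟩
  obtain ⟨y', hy'⟩ : ∃ y' : X, y' = ∑ γ ∈ R, q γ • e γ := ⟨_, rfl⟩
  rw [← hy'] at hmem ⊢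
  have hsplit : ∑ γ ∈ A k, q γ • e γ = ∑ γ ∈ A k \ R, q γ • e γ + y' := by
    rw [hy', Finset.sum_sdiff (hR k)]
  have h1 := hξ1 y' (x - ∑ γ ∈ A k, q γ • e γ)
  have h2 : ξ y' (x - ∑ γ ∈ A k, q γ • e γ) =
      qn N Z (x - y') - ∑ γ ∈ A k \ R, q γ * ξ y' (e γ) := by
    rw [← hξ2 y', hsplit]
    have e1 : x - (∑ γ ∈ A k \ R, q γ • e γ + y') = (x - y') - ∑ γ ∈ A k \ R, q γ • e γ := by abel
    rw [e1, map_sub, map_sum]
    congr 1
    exact Finset.sum_congr rfl fun γ _ => by rw [map_smul, smul_eq_mul]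
  have h3 : |∑ γ ∈ A k \ R, q γ * ξ y' (e γ)| ≤ δ := by
    have h4 : ∀ γ ∈ A k \ R, |q γ * ξ y' (e γ)| ≤ m * τ := fun γ hγ => by
      rw [abs_mul]
      have h5 : γ ∉ D := fun hγD =>
        hk ⟨γ, ⟨hγD, (Finset.mem_sdiff.1 hγ).2⟩, (Finset.mem_sdiff.1 hγ).1⟩
      have h6 : ¬ τ ≤ |ξ y' (e γ)| := fun h => h5 (by
        rw [hD]
        exact mem_biUnion hmem h)
      push Not at h6
      exact mul_le_mul (abs_le_of_mem_grid (hq γ)) h6.le (abs_nonneg _) (by positivity)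
    refine (Finset.abs_sum_le_sum_abs _ _).trans ((Finset.sum_le_card_nsmul _ _ _ h4).trans ?_)
    have h7 : ((A k \ R).card : ℝ) ≤ n := by
      exact_mod_cast (Finset.card_le_card Finset.sdiff_subset).trans (hA k)
    rw [nsmul_eq_mul]
    have h8 : ((A k \ R).card : ℝ) * (m * τ) ≤ n * (m * τ) :=
      mul_le_mul_of_nonneg_right h7 (by positivity)
    have h9 : (n : ℝ) * (m * τ) ≤ δ := by
      rw [hτ, ← mul_assoc, ← mul_div_assoc, div_le_iff₀ hden]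
      nlinarith
    linarith
  have h10 := (abs_le.1 h3).2
  linarith

/-- The labels are dense modulo `Z`. -/
theorem lab_dense (hN : EquivNorm N) {e : Γ → X} {x y' : X}
    (hy' : y' ∈ (Z ⊔ Submodule.span ℝ (range e)).topologicalClosure) {δ : ℝ} (hδ : 0 < δ) :
    ∃ (A : Finset Γ) (m : ℕ), ∃ τ ∈ Y e A m, qn N Z (x - τ) ≤ N (x - y') + δ := by
  classical
  obtain ⟨B, hB, hb⟩ := exists_bound hN 1
  have hNb : ∀ v, N v ≤ (B + 1) * ‖v‖ := fun v => by
    have h1 := hb N (fun x y => by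
      rw [one_mul, abs_le]
      have h1 := N_lip hN x y 0
      have h2 := N_lip hN y x 0
      rw [sub_zero, sub_zero] at h1 h2
      rw [hN.symm_sub y x] at h2
      constructor <;> linarith) v 0
    rw [N_zero hN, sub_zero, sub_zero] at h1
    have h2 := le_of_abs_le h1
    have h3 := norm_nonneg v
    nlinarith
  have hB1 : 0 < B + 1 := by linarith
  have h1 : y' ∈ closure ((Z ⊔ Submodule.span ℝ (range e) : Submodule ℝ X) : Set X) := hy'
  obtain ⟨p, hp, hxp⟩ := Metric.mem_closure_iff.1 h1 (δ / 2 / (B + 1)) (by positivity)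
  obtain ⟨z, hz, u, hu, rfl⟩ := Submodule.mem_sup.1 hp
  obtain ⟨c, hc⟩ := (Finsupp.mem_span_range_iff_exists_finsupp (R := ℝ)).1 hu
  obtain ⟨M, hM⟩ : ∃ M : ℝ, M = ∑ γ ∈ c.support, ‖e γ‖ + 1 := ⟨_, rfl⟩
  have hM0 : 0 < M := by rw [hM]; positivity
  obtain ⟨τ₀, hτ₀⟩ : ∃ τ₀ : ℝ, τ₀ = δ / 2 / (B + 1) / M := ⟨_, rfl⟩
  have hτ : 0 < τ₀ := by rw [hτ₀]; positivity
  choose m₀ hm₀ using fun γ => exists_grid (c γ) hτ
  obtain ⟨m, hm⟩ : ∃ m : ℕ, ∀ γ ∈ c.support, m₀ γ ≤ m :=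
    ⟨c.support.sup m₀, fun γ hγ => Finset.le_sup hγ⟩
  have hq : ∀ γ, ∃ q ∈ grid m, γ ∈ c.support → |c γ - q| ≤ τ₀ := fun γ => by
    by_cases h : γ ∈ c.support
    · obtain ⟨q, hq1, hq2⟩ := hm₀ γ m (hm γ h)
      exact ⟨q, hq1, fun _ => hq2⟩
    · exact ⟨0, zero_mem_grid m, fun h' => absurd h' h⟩
  choose q hq1 hq2 using hq
  refine ⟨c.support, m, _, ⟨q, hq1, rfl⟩, ?_⟩
  have h2 : u - ∑ γ ∈ c.support, q γ • e γ = ∑ γ ∈ c.support, (c γ - q γ) • e γ := by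
    rw [← hc, Finsupp.sum, ← Finset.sum_sub_distrib]
    exact Finset.sum_congr rfl fun γ _ => by rw [sub_smul]
  have h3 : ‖u - ∑ γ ∈ c.support, q γ • e γ‖ ≤ τ₀ * M := by
    rw [h2]
    refine (norm_sum_le _ _).trans ?_
    have h4 : ∀ γ ∈ c.support, ‖(c γ - q γ) • e γ‖ ≤ τ₀ * ‖e γ‖ := fun γ hγ => by
      rw [norm_smul, Real.norm_eq_abs]
      exact mul_le_mul_of_nonneg_right (hq2 γ hγ) (norm_nonneg _)
    refine (Finset.sum_le_sum h4).trans ?_
    rw [← Finset.mul_sum]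
    refine mul_le_mul_of_nonneg_left ?_ hτ.le
    rw [hM]
    linarith
  have h5 : τ₀ * M = δ / 2 / (B + 1) := by
    rw [hτ₀]
    field_simp
  rw [h5] at h3
  have h6 : N (u - ∑ γ ∈ c.support, q γ • e γ) ≤ δ / 2 := by
    have h7 := mul_le_mul_of_nonneg_left h3 hB1.le
    have h8 : (B + 1) * (δ / 2 / (B + 1)) = δ / 2 := by field_simp
    rw [h8] at h7
    exact (hNb _).trans h7
  have h7 : N (y' - (z + u)) ≤ δ / 2 := by
    rw [dist_eq_norm] at hxp
    have h8 := mul_le_mul_of_nonneg_left hxp.le hB1.le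
    have h9 : (B + 1) * (δ / 2 / (B + 1)) = δ / 2 := by field_simp
    rw [h9] at h8
    exact (hNb _).trans h8
  have h8 := qn_le hN (x - ∑ γ ∈ c.support, q γ • e γ) hz
  have h9 : x - ∑ γ ∈ c.support, q γ • e γ - z =
      (x - y') + ((y' - (z + u)) + (u - ∑ γ ∈ c.support, q γ • e γ)) := by abel
  rw [h9] at h8
  have h10 := hN.add_le (x - y') ((y' - (z + u)) + (u - ∑ γ ∈ c.support, q γ • e γ))
  have h11 := hN.add_le (y' - (z + u)) (u - ∑ γ ∈ c.support, q γ • e γ)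
  linarith

end Pool.Agent.MP_85fd23_an.T
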