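import Pool.Agent.Lib.MP_85fd23_an_T.Omega

/-!
# MP_85fd23_an, towers: one step of a tower, and the approximation theorem for towers
-/

set_option autoImplicit false
set_option linter.unusedSectionVars false

open Filter Metric Set
open scoped Topology

namespace Pool.Agent.MP_85fd23_an.T

open Pool.Agent.MP_85fd23_an.B Pool.Agent.MP_85fd23_an.W

variable {X : Type*} [NormedAddCommGroup X] [NormedSpace ℝ X] {Γ : Type*}

/-- Every Lipschitz function has good minorants which reach it up to a multiple of the distance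
to `Z`. -/
def Low (N : X → ℝ) (Z : Submodule ℝ X) (s c : ℝ) : Prop :=
  ∀ L : ℝ, 0 ≤ L → ∀ F : X → ℝ, NLip N L F → ∃ w : ℕ → X → ℝ, Wit N Z s c L F w

/-- The same with a single minorant. -/
def LowE (N : X → ℝ) (Z : Submodule ℝ X) (s c : ℝ) : Prop :=
  ∀ L : ℝ, 0 ≤ L → ∀ F : X → ℝ, NLip N L F → ∃ w : X → ℝ, Wit N Z s c L F (fun _ => w)

variable {e : Γ → X} {N : X → ℝ} {Z Z' : Submodule ℝ X} {s c L : ℝ} {F : X → ℝ}

theorem nlip_trans (hF : NLip N L F) (τ : X) : NLip N L (fun x => F (x + τ)) := fun x y => by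
  have h1 := hF (x + τ) (y + τ)
  rwa [add_sub_add_right_eq_sub] at h1

theorem nlip_neg (hF : NLip N L F) : NLip N L (fun x => -F x) := fun x y => by
  have e1 : -F x - -F y = -(F x - F y) := by ring
  rw [e1, abs_neg]
  exact hF x y

theorem lowE_bot [CompleteSpace X] {C : ℝ} (hS : StarOne (fun x : X => ‖x‖) C)
    (hN : EquivNorm N) : LowE N (⊥ : Submodule ℝ X) 1 2 := by
  intro L hL F hF
  refine ⟨fun x => F 0 + -(L * N (x - 0)), ⟨fun k => ?_, fun k x => le_rfl, fun k x => ?_,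
    fun x y hy δ hδ => ⟨0, ?_⟩⟩⟩
  · have h1 := good_add (good_const hN (F 0) isOpen_univ)
      (good_neg hN (good_cone hS hN hL (0 : X)))
    have e1 : (0 : ℝ) + L = 1 * L := by ring
    rwa [e1] at h1
  · have h1 := (abs_le.1 (hF x 0)).1
    linarith
  · rw [Submodule.mem_bot] at hy
    subst hy
    have h1 := (abs_le.1 (hF x 0)).2
    linarith

/-- A step of a tower. -/
theorem low_step [CompleteSpace X] {C : ℝ} (hS : StarOne (fun x : X => ‖x‖) C)
    (hN : EquivNorm N) (hc : 0 ≤ c)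
    (hc0 : ∀ φ : X →L[ℝ] ℝ, (∀ y ∈ Z, φ y = 0) → ∀ ε > 0, {γ | ε ≤ |φ (e γ)|}.Finite)
    (hZ : Z' ≤ (Z ⊔ Submodule.span ℝ (range e)).topologicalClosure) (h : Low N Z s c) :
    Low N Z' (s + 2 * c) (2 * c) := by
  intro L hL F hF
  have hr : 0 ≤ c * L := mul_nonneg hc hL
  choose V hV using fun τ : X => h L hL _ (nlip_trans hF τ)
  choose V' hV' using fun τ : X => h L hL _ (nlip_trans (nlip_neg hF) τ)
  have hP : ∀ n, ∃ P : X → ℝ, Good N P (s * L + c * L) univ ∧
      (∀ x, F x - c * L * sg e N Z n x ≤ P x) ∧ ∀ x, P x ≤ F x + c * L * sg e N Z n x := by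
    intro n
    obtain ⟨P, h1, h2, h3⟩ := good_between hS hN
      (V := fun k x => -om e N Z (c * L) V' n k x) (W := fun k => om e N Z (c * L) V n k)
      (fun k => good_neg hN (good_om hS hN hc0 hr (fun τ k => (hV' τ).good k) n k))
      (fun k => good_om hS hN hc0 hr (fun τ k => (hV τ).good k) n k)
      (fun k x => neg_le_neg (om_mono hN hr (fun τ k x => (hV' τ).mono k x) n k x))
      (fun k x => om_mono hN hr (fun τ k x => (hV τ).mono k x) n k x) (fun x δ hδ => by
        obtain ⟨k₁, hk₁⟩ := exists_om hN hc0 hc hL hV n x (half_pos hδ)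
        obtain ⟨k₂, hk₂⟩ := exists_om (F := fun x => -F x) hN hc0 hc hL hV' n x
          (half_pos hδ)
        have m1 : Monotone fun k => om e N Z (c * L) V n k x := monotone_nat_of_le_succ fun k =>
          om_mono hN hr (fun τ k x => (hV τ).mono k x) n k x
        have m2 : Monotone fun k => om e N Z (c * L) V' n k x := monotone_nat_of_le_succ fun k =>
          om_mono hN hr (fun τ k x => (hV' τ).mono k x) n k x
        have h1 := m1 (le_max_left k₁ k₂)
        have h2 := m2 (le_max_right k₁ k₂)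
        refine ⟨max k₁ k₂, ?_⟩
        simp only at h1 h2
        linarith)
    refine ⟨P, h1, fun x => h2 x _ fun k => ?_, fun x => h3 x _ fun k => ?_⟩
    · have h4 := om_le (e := e) (Z := Z) (F := fun x => -F x) hN hr
        (fun τ k x => (hV' τ).le k x) n k x
      linarith
    · exact om_le hN hr (fun τ k x => (hV τ).le k x) n k x
  choose P hP1 hP2 hP3 using hP
  obtain ⟨w, hw⟩ : ∃ w : ℕ → X → ℝ, w = fun n x => (Finset.range (n + 1)).sup'
    Finset.nonempty_range_add_one fun j => P j x + -(c * L * sg e N Z j x) := ⟨_, rfl⟩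
  have hw1 : ∀ n j x, j ≤ n → P j x + -(c * L * sg e N Z j x) ≤ w n x := fun n j x hj => by
    rw [hw]
    exact Finset.le_sup' (f := fun j => P j x + -(c * L * sg e N Z j x))
      (Finset.mem_range.2 (by omega))
  have hw2 : ∀ n x, ∃ j ≤ n, w n x = P j x + -(c * L * sg e N Z j x) := fun n x => by
    obtain ⟨j, hj, h1⟩ := (Finset.range (n + 1)).exists_mem_eq_sup' Finset.nonempty_range_add_one
      fun j => P j x + -(c * L * sg e N Z j x)
    refine ⟨j, by have := Finset.mem_range.1 hj; omega, ?_⟩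
    rw [hw]
    exact h1
  refine ⟨w, ⟨fun n => ?_, fun n x => ?_, fun n x => ?_, fun x y hy δ hδ => ?_⟩⟩
  · rw [hw]
    refine good_sup' hS hN _ _ _ fun j _ => ?_
    have h1 := good_add (hP1 j) (good_neg hN (good_smul hN hr (good_sg hS hN hc0 j)))
    have e1 : s * L + c * L + c * L * 1 = (s + 2 * c) * L := by ring
    rwa [e1] at h1
  · obtain ⟨j, hj, h1⟩ := hw2 n x
    rw [h1]
    exact hw1 (n + 1) j x (by omega)
  · obtain ⟨j, hj, h1⟩ := hw2 n x
    rw [h1]
    linarith [hP3 j x]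
  · obtain ⟨n, hn⟩ := exists_sg hN (x := x) (hZ hy)
      (show 0 < δ / (2 * (c * L) + 1) by positivity)
    refine ⟨n, ?_⟩
    have h1 := hw1 n n x le_rfl
    have h2 := hP2 n x
    have h3 := mul_le_mul_of_nonneg_left hn (show 0 ≤ 2 * (c * L) by positivity)
    have h4 : 2 * (c * L) * (δ / (2 * (c * L) + 1)) ≤ δ := by
      rw [← mul_div_assoc, div_le_iff₀ (by positivity)]
      nlinarith
    rw [mul_add] at h3
    have e1 : 2 * c * L * N (x - y) = 2 * (c * L) * N (x - y) := by ring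
    linarith

/-- The first step of a tower. -/
theorem low_first [CompleteSpace X] {C : ℝ} (hS : StarOne (fun x : X => ‖x‖) C)
    (hN : EquivNorm N) (hc : 0 ≤ c)
    (hc0 : ∀ φ : X →L[ℝ] ℝ, (∀ y ∈ Z, φ y = 0) → ∀ ε > 0, {γ | ε ≤ |φ (e γ)|}.Finite)
    (hZ : Z' ≤ (Z ⊔ Submodule.span ℝ (range e)).topologicalClosure) (h : LowE N Z s c) :
    Low N Z' (s + c) c := by
  intro L hL F hF
  have hr : 0 ≤ c * L := mul_nonneg hc hL
  choose v hv using fun τ : X => h L hL _ (nlip_trans (nlip_neg hF) τ)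
  obtain ⟨V, hV⟩ : ∃ V : X → ℕ → X → ℝ, V = fun τ _ => v τ := ⟨_, rfl⟩
  have hV' : ∀ τ, Wit N Z s c L (fun x => -F (x + τ)) (V τ) := fun τ => by
    rw [hV]
    exact hv τ
  have hcon : ∀ n k x, om e N Z (c * L) V n k x = om e N Z (c * L) V n 0 x := fun n k x => by
    rw [hV]
    rfl
  refine ⟨fun n x => -om e N Z (c * L) V n 0 x, ⟨fun n => ?_, fun n x => ?_, fun n x => ?_,
    fun x y hy δ hδ => ?_⟩⟩
  · have h1 := good_neg hN (good_om hS hN hc0 hr (fun τ k => (hV' τ).good k) n 0)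
    rwa [← add_mul] at h1
  · exact neg_le_neg (om_anti hN hr n 0 x)
  · refine le_of_forall_pos_le_add fun δ hδ => ?_
    obtain ⟨k, hk⟩ := exists_om (F := fun x => -F x) hN hc0 hc hL hV' n x hδ
    rw [hcon] at hk
    linarith
  · obtain ⟨n, hn⟩ := exists_sg hN (x := x) (hZ hy) (show 0 < δ / (c * L + 1) by positivity)
    refine ⟨n, ?_⟩
    have h1 := om_le (e := e) (Z := Z) (F := fun x => -F x) hN hr
      (fun τ k x => (hV' τ).le k x) n 0 x
    have h3 := mul_le_mul_of_nonneg_left hn hr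
    have h4 : c * L * (δ / (c * L + 1)) ≤ δ := by
      rw [← mul_div_assoc, div_le_iff₀ (by positivity)]
      nlinarith
    rw [mul_add] at h3
    linarith

/-- If the minorants reach every function on the whole space, every function is good. -/
theorem good_of_low [CompleteSpace X] {C : ℝ} (hS : StarOne (fun x : X => ‖x‖) C)
    (hN : EquivNorm N) (h : Low N (⊤ : Submodule ℝ X) s c) (hL : 0 ≤ L) (hF : NLip N L F) :
    Good N F (s * L) univ := by
  obtain ⟨w, hw⟩ := h L hL F hF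
  obtain ⟨v, hv⟩ := h L hL _ (nlip_neg hF)
  obtain ⟨B, hB, hb⟩ := exists_bound hN (s * L)
  refine good_insert hS hN hB (V := fun k x => -v k x) (W := fun k x => -w k x)
    (fun k => hb _ (good_nlip hN (good_neg hN (hv.good k))))
    (fun k => hb _ (good_nlip hN (good_neg hN (hw.good k))))
    (fun k => good_neg hN (hv.good k)) (fun k => good_neg hN (hw.good k))
    (fun k x => neg_le_neg (hv.mono k x)) (fun k x => neg_le_neg (hw.mono k x))
    (fun k x => by linarith [hv.le k x]) (fun k x => by linarith [hw.le k x])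
    (fun x δ hδ => ?_) (fun x δ hδ => ?_)
  · obtain ⟨k, hk⟩ := hv.conv x x Submodule.mem_top δ hδ
    rw [sub_self, N_zero hN, mul_zero] at hk
    exact ⟨k, by linarith⟩
  · obtain ⟨k, hk⟩ := hw.conv x x Submodule.mem_top δ hδ
    rw [sub_self, N_zero hN, mul_zero] at hk
    exact ⟨k, by linarith⟩

/-- A step: the larger space is generated, over the smaller one, by a set whose points tend to
zero weakly modulo the smaller one. -/
def Step (Z Z' : Submodule ℝ X) : Prop :=
  ∃ S : Set X, Z' ≤ (Z ⊔ Submodule.span ℝ S).topologicalClosure ∧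
    ∀ φ : X →L[ℝ] ℝ, (∀ y ∈ Z, φ y = 0) → ∀ ε > 0, {x ∈ S | ε ≤ |φ x|}.Finite

theorem step_fam (h : Step Z Z') : ∃ (S : Set X) (e : S → X),
    Z' ≤ (Z ⊔ Submodule.span ℝ (range e)).topologicalClosure ∧
    ∀ φ : X →L[ℝ] ℝ, (∀ y ∈ Z, φ y = 0) → ∀ ε > 0, {γ | ε ≤ |φ (e γ)|}.Finite := by
  obtain ⟨S, h1, h2⟩ := h
  refine ⟨S, Subtype.val, by rwa [Subtype.range_coe], fun φ hφ ε hε => ?_⟩
  refine Finite.of_finite_image (f := Subtype.val) ((h2 φ hφ ε hε).subset ?_)
    Subtype.val_injective.injOn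
  rintro _ ⟨x, hx, rfl⟩
  exact ⟨x.2, hx⟩

theorem low_tower [CompleteSpace X] {C : ℝ} (hS : StarOne (fun x : X => ‖x‖) C)
    (hN : EquivNorm N) (T : ℕ → Submodule ℝ X) (h0 : T 0 = ⊥) (k : ℕ)
    (hT : ∀ i, i < k + 1 → Step (T i) (T (i + 1))) :
    Low N (T (k + 1)) (2 ^ (k + 2) - 1) (2 ^ (k + 1)) := by
  induction k with
  | zero =>
    obtain ⟨S, e, h1, h2⟩ := step_fam (hT 0 (by omega))
    rw [h0] at h1 h2
    have h3 := low_first hS hN zero_le_two h2 h1 (lowE_bot hS hN)
    have e1 : (1 : ℝ) + 2 = 2 ^ (0 + 2) - 1 := by norm_num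
    have e2 : (2 : ℝ) = 2 ^ (0 + 1) := by norm_num
    rw [e1] at h3
    exact e2 ▸ h3
  | succ k ih =>
    obtain ⟨S, e, h1, h2⟩ := step_fam (hT (k + 1) (by omega))
    have h3 := low_step hS hN (by positivity) h2 h1 (ih fun i hi => hT i (by omega))
    have e1 : (2 : ℝ) ^ (k + 2) - 1 + 2 * 2 ^ (k + 1) = 2 ^ (k + 1 + 2) - 1 := by ring
    have e2 : (2 : ℝ) * 2 ^ (k + 1) = 2 ^ (k + 1 + 1) := by ring
    rwa [e1, e2] at h3

/-- Approximation of all Lipschitz functions in a space with a finite tower. -/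
theorem approx_tower [CompleteSpace X] {C : ℝ} (hS : StarOne (fun x : X => ‖x‖) C)
    (hN : EquivNorm N) (T : ℕ → Submodule ℝ X) (h0 : T 0 = ⊥) (k : ℕ) (hk : T k = ⊤)
    (hT : ∀ i, i < k → Step (T i) (T (i + 1))) (hL : 0 ≤ L) (hF : NLip N L F) {ε η : ℝ}
    (hε : 0 < ε) (hη : 0 < η) :
    ∃ g : X → ℝ, ContDiff ℝ 1 g ∧ (∀ x, |g x - F x| ≤ ε) ∧
      NLip N ((2 ^ (k + 1) - 1) * L + η) g := by
  have hG : Good N F ((2 ^ (k + 1) - 1) * L) univ := by
    rcases k with _ | k
    · have hz : ∀ x : X, x = 0 := fun x => by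
        have h1 : x ∈ (⊤ : Submodule ℝ X) := Submodule.mem_top
        rw [← hk, h0] at h1
        exact (Submodule.mem_bot ℝ).1 h1
      have h1 : F = fun _ => F 0 := by
        funext x
        rw [hz x]
      rw [h1]
      refine good_mono hN ?_ isOpen_univ le_rfl (good_const hN (F 0) isOpen_univ)
      norm_num
      exact hL
    · have h1 := low_tower hS hN T h0 k hT
      rw [hk] at h1
      exact good_of_low hS hN h1 hL hF
  obtain ⟨g, h1, h2, h3⟩ := hG.2 ε hε η hη
  rw [contDiffOn_univ] at h1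
  exact ⟨g, h1, fun x => h2 x (mem_univ x), nlip_of_pb hN h1 fun x => h3 x (mem_univ x)⟩

end Pool.Agent.MP_85fd23_an.T
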